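import Mathlib

/-! Bit mask verification of a block of consecutive integers covered by two primes or by a square. -/

set_option autoImplicit false

namespace Pool.Agent.Q45.Cov

/-- the number whose binary digits are the positions `r, r+d, ..., r+(k-1)d` -/
def mask (d r : ℕ) : ℕ → ℕ
  | 0 => 0
  | k + 1 => mask d r k ||| 2 ^ (r + k * d)

theorem mask_bit (d r k i : ℕ) (h : (mask d r k).testBit i = true) :
    ∃ j, i = r + j * d := by
  induction k with
  | zero => simp [mask] at h
  | succ k ih =>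
    rw [mask, Nat.testBit_or, Bool.or_eq_true] at h
    rcases h with h | h
    · exact ih h
    · rw [Nat.testBit_two_pow] at h
      exact ⟨k, (by simpa using h : r + k * d = i).symm⟩

/-- processing one prime `e.1` placed at the position `e.2` -/
def step (n : ℕ) (s e : ℕ × ℕ) : ℕ × ℕ :=
  let m1 := mask e.1 (e.2 % e.1) (n / e.1 + 1)
  let m2 := if 2 * e.1 < n then mask (e.1 * e.1) (e.2 % (e.1 * e.1)) (n / (e.1 * e.1) + 1) else 0
  (s.1 ||| m1, (s.2 ||| (s.1 &&& m1)) ||| m2)

/-- the modulus attached to a prime -/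
def md (n p : ℕ) : ℕ := if 2 * p < n then p * p else p

/-- `x + i` is covered -/
def Covered (n x : ℕ) : Prop :=
  (∃ p q : ℕ, p.Prime ∧ q.Prime ∧ p ≠ q ∧ p < n ∧ q < n ∧ p * q ∣ x) ∨
  (∃ p : ℕ, p.Prime ∧ 2 * p < n ∧ p ^ 2 ∣ x)

theorem dvd_of_mask {d a x k i : ℕ} (h : (mask d (a % d) k).testBit i = true)
    (hx : d ∣ x + a) : d ∣ x + i := by
  obtain ⟨j, rfl⟩ := mask_bit _ _ _ _ h
  have h1 : x + (a % d + j * d) ≡ x + a [MOD d] := by
    apply Nat.ModEq.add_left
    have : a % d + j * d ≡ a % d [MOD d] := by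
      simp [Nat.ModEq]
    exact this.trans (Nat.mod_modEq a d)
  exact (h1.dvd_iff (dvd_refl d)).mpr hx

theorem fold_inv (n x : ℕ) : ∀ (L : List (ℕ × ℕ)) (S : List ℕ) (s : ℕ × ℕ),
    (∀ e ∈ L, e.1.Prime ∧ e.1 < n ∧ md n e.1 ∣ x + e.2) →
    (S ++ L.map Prod.fst).Nodup →
    (∀ i, s.1.testBit i = true → ∃ p ∈ S, p.Prime ∧ p < n ∧ p ∣ x + i) →
    (∀ i, s.2.testBit i = true → Covered n (x + i)) →
    ∀ i, (L.foldl (step n) s).2.testBit i = true → Covered n (x + i) := by
  intro L
  induction L with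
  | nil => intro S s _ _ _ h2 i hi; exact h2 i hi
  | cons e L ih =>
    intro S s hL hnd h1 h2 i hi
    rw [List.foldl_cons] at hi
    obtain ⟨hp, hpn, hdv⟩ := hL e (by simp)
    have hdp : e.1 ∣ x + e.2 := by
      refine dvd_trans ?_ hdv
      unfold md
      split_ifs
      · exact dvd_mul_right _ _
      · exact dvd_refl _
    refine ih (S ++ [e.1]) _ (fun f hf => hL f (by simp [hf])) ?_ ?_ ?_ i hi
    · simpa [List.append_assoc] using hnd
    · intro i hi
      simp only [step] at hi
      rw [Nat.testBit_or, Bool.or_eq_true] at hi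
      rcases hi with hi | hi
      · obtain ⟨p, hpS, h⟩ := h1 i hi
        exact ⟨p, by simp [hpS], h⟩
      · exact ⟨e.1, by simp, hp, hpn, dvd_of_mask hi hdp⟩
    · intro i hi
      simp only [step] at hi
      rw [Nat.testBit_or, Bool.or_eq_true, Nat.testBit_or, Bool.or_eq_true, Nat.testBit_and,
        Bool.and_eq_true] at hi
      rcases hi with (hi | ⟨hi1, hi2⟩) | hi
      · exact h2 i hi
      · obtain ⟨p, hpS, hpp, hpn', hpd⟩ := h1 i hi1
        left
        have hne : p ≠ e.1 := by
          rintro rfl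
          rw [List.nodup_append] at hnd
          exact hnd.2.2 _ hpS _ (by simp) rfl
        refine ⟨p, e.1, hpp, hp, hne, hpn', hpn, ?_⟩
        exact Nat.Coprime.mul_dvd_of_dvd_of_dvd ((Nat.coprime_primes hpp hp).mpr hne) hpd
          (dvd_of_mask hi2 hdp)
      · split_ifs at hi with h
        · right
          refine ⟨e.1, hp, h, ?_⟩
          rw [pow_two]
          refine dvd_of_mask hi ?_
          simpa [md, h] using hdv
        · simp at hi

/-- Trial division. -/
def isP (p : ℕ) : Bool :=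
  decide (2 ≤ p) && (List.range 130).all (fun d => decide (d < 2) || decide (p < d * d) || decide (p % d ≠ 0))

theorem isP_prime {p : ℕ} (h : isP p = true) (hp : p < 16900) : p.Prime := by
  unfold isP at h
  simp only [Bool.and_eq_true, decide_eq_true_eq, List.all_eq_true, List.mem_range,
    Bool.or_eq_true] at h
  obtain ⟨h2, h⟩ := h
  by_contra hnp
  have hm := Nat.minFac_sq_le_self (by omega) hnp
  have hmp : (Nat.minFac p).Prime := Nat.minFac_prime (by omega)
  have hlt : Nat.minFac p < 130 := by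
    by_contra hc
    push Not at hc
    have : 130 ^ 2 ≤ Nat.minFac p ^ 2 := Nat.pow_le_pow_left hc 2
    omega
  rcases h _ hlt with (h | h) | h
  · have := hmp.two_le; omega
  · nlinarith
  · exact h (Nat.mod_eq_zero_of_dvd (Nat.minFac_dvd p))

/-- Strictly increasing primes below `n`. -/
def okList (n : ℕ) : ℕ → List (ℕ × ℕ) → Bool
  | _, [] => true
  | b, e :: L => decide (b < e.1) && decide (e.1 < n) && isP e.1 && okList n e.1 L

theorem okList_spec (n : ℕ) (hn : n ≤ 16900) : ∀ (L : List (ℕ × ℕ)) (b : ℕ), okList n b L = true →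
    (∀ e ∈ L, b < e.1 ∧ e.1.Prime ∧ e.1 < n) ∧ (L.map Prod.fst).Nodup := by
  intro L
  induction L with
  | nil => intro b _; simp
  | cons e L ih =>
    intro b h
    simp only [okList, Bool.and_eq_true, decide_eq_true_eq] at h
    obtain ⟨⟨⟨h1, h2⟩, h3⟩, h4⟩ := h
    obtain ⟨ih1, ih2⟩ := ih _ h4
    refine ⟨?_, ?_⟩
    · intro f hf
      rcases List.mem_cons.mp hf with rfl | hf
      · exact ⟨h1, isP_prime h3 (by omega), h2⟩
      · obtain ⟨a, b', c⟩ := ih1 f hf
        exact ⟨by omega, b', c⟩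
    · rw [List.map_cons, List.nodup_cons]
      refine ⟨?_, ih2⟩
      intro hc
      rw [List.mem_map] at hc
      obtain ⟨f, hf, hfe⟩ := hc
      have := (ih1 f hf).1
      omega

/-- The whole check. -/
def check (n : ℕ) (L : List (ℕ × ℕ)) : Bool :=
  decide (n ≤ 16900) && okList n 0 L &&
    decide ((L.foldl (step n) (0, 0)).2 &&& (2 ^ n - 1) = 2 ^ n - 1)

theorem crt (n : ℕ) (L : List (ℕ × ℕ)) (h1 : ∀ e ∈ L, e.1.Prime) (h2 : (L.map Prod.fst).Nodup) :
    ∃ x : ℕ, 1 ≤ x ∧ ∀ e ∈ L, md n e.1 ∣ x + e.2 := by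
  classical
  -- a finset version of the Chinese remainder theorem
  have hco : (L : List (ℕ × ℕ)).Pairwise (fun e f => (md n e.1).Coprime (md n f.1)) := by
    have h3 : L.Pairwise (fun e f => e.1 ≠ f.1) := by
      have := h2
      rw [List.Nodup, List.pairwise_map] at this
      exact this
    refine List.Pairwise.imp_of_mem ?_ h3
    intro e f he hf hef
    have := (Nat.coprime_primes (h1 e he) (h1 f hf)).mpr hef
    unfold md
    split_ifs
    · exact Nat.Coprime.mul_right (Nat.Coprime.mul_left this this) (Nat.Coprime.mul_left this this)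
    · exact Nat.Coprime.mul_left this this
    · exact Nat.Coprime.mul_right this this
    · exact this
  have hm : ∀ e ∈ L, 0 < md n e.1 := by
    intro e he
    have := (h1 e he).pos
    unfold md
    split_ifs
    · positivity
    · exact this
  obtain ⟨k, hk⟩ := Nat.chineseRemainderOfList (fun e : ℕ × ℕ => md n e.1 * (e.2 + 1) - e.2)
    (fun e => md n e.1) L hco
  refine ⟨k + (L.map (fun e => md n e.1)).prod, ?_, ?_⟩
  · have : 0 < (L.map (fun e => md n e.1)).prod := by
      apply List.prod_pos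
      intro a ha
      rw [List.mem_map] at ha
      obtain ⟨e, he, rfl⟩ := ha
      exact hm e he
    omega
  · intro e he
    have h3 := hk e he
    have h4 : md n e.1 ∣ (L.map (fun e => md n e.1)).prod :=
      List.dvd_prod (List.mem_map_of_mem he)
    have h5 : k + (L.map (fun e => md n e.1)).prod + e.2 ≡
        (md n e.1 * (e.2 + 1) - e.2) + 0 + e.2 [MOD md n e.1] := by
      apply Nat.ModEq.add_right
      exact Nat.ModEq.add h3 ((Nat.modEq_zero_iff_dvd).mpr h4)
    have h6 : (md n e.1 * (e.2 + 1) - e.2) + 0 + e.2 = md n e.1 * (e.2 + 1) := by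
      have : e.2 ≤ md n e.1 * (e.2 + 1) := by
        have := hm e he
        nlinarith
      omega
    rw [h6] at h5
    exact (h5.dvd_iff (dvd_refl _)).mpr (dvd_mul_right _ _)

theorem main (n : ℕ) (L : List (ℕ × ℕ)) (h : check n L = true) :
    ∃ m : ℕ, ∀ i ∈ Finset.Icc 1 n, Covered n (m + i) := by
  simp only [check, Bool.and_eq_true, decide_eq_true_eq] at h
  obtain ⟨⟨hn, hL⟩, hc⟩ := h
  obtain ⟨h1, h2⟩ := okList_spec n hn L 0 hL
  obtain ⟨x, hx1, hx⟩ := crt n L (fun e he => (h1 e he).2.1) h2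
  refine ⟨x - 1, ?_⟩
  intro i hi
  rw [Finset.mem_Icc] at hi
  have hb : (L.foldl (step n) (0, 0)).2.testBit (i - 1) = true := by
    have h3 : ((L.foldl (step n) (0, 0)).2 &&& (2 ^ n - 1)).testBit (i - 1) = true := by
      rw [hc, Nat.testBit_two_pow_sub_one]
      simp; omega
    rw [Nat.testBit_and, Bool.and_eq_true] at h3
    exact h3.1
  have := fold_inv n x L [] (0, 0)
    (fun e he => ⟨(h1 e he).2.1, (h1 e he).2.2, hx e he⟩) (by simpa using h2)
    (by intro i hi; simp at hi) (by intro i hi; simp at hi) (i - 1) hb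
  rwa [show x - 1 + i = x + (i - 1) by omega]

end Pool.Agent.Q45.Cov
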